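import Mathlib
import Pool.Agent.Helper53.AE.GoalsA

set_option autoImplicit false

namespace Pool.Agent.Helper57.AE.PRX

open Pool.Agent.Helper53.AE

/-- Projections have norm at most one. -/
lemma norm_pj {N : Type} [NonUnitalCStarAlgebra N] {p : N} (h : Pj p) : ‖p‖ ≤ 1 := by
  have h1 : ‖star p * p‖ = ‖p‖ * ‖p‖ := CStarRing.norm_star_mul_self
  rw [h.1, h.2] at h1
  by_contra hc
  push Not at hc
  nlinarith [norm_nonneg p]

/-- Unitaries have norm at most one. -/
lemma norm_u {N : Type} [CStarAlgebra N] {w : N} (h : star w * w = 1) : ‖w‖ ≤ 1 := by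
  have h1 : ‖star w * w‖ = ‖w‖ * ‖w‖ := CStarRing.norm_star_mul_self
  have h2 : ‖(1 : N)‖ ≤ 1 := norm_pj (p := (1 : N)) ⟨by simp, by simp⟩
  rw [h] at h1
  nlinarith [norm_nonneg w]

/-- Conjugation by an isometry. -/
noncomputable def conj {N : Type} [CStarAlgebra N] (w : N) (h : star w * w = 1) :
    N →⋆ₙₐ[ℂ] N where
  toFun x := w * x * star w
  map_smul' c x := by simp
  map_zero' := by simp
  map_add' x y := by simp [mul_add, add_mul]
  map_mul' x y := by
    have : w * x * star w * (w * y * star w) = w * x * (star w * w) * y * star w := by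
      noncomm_ring
    rw [this, h]
    simp [mul_assoc]
  map_star' x := by simp [mul_assoc]

lemma conj_apply {N : Type} [CStarAlgebra N] (w : N) (h : star w * w = 1) (x : N) :
    conj w h x = w * x * star w := rfl

lemma fd_map {N : Type} [CStarAlgebra N] (F : NonUnitalStarSubalgebra ℂ N)
    (hF : FiniteDimensional ℂ F) (φ : N →⋆ₙₐ[ℂ] N) : FiniteDimensional ℂ (F.map φ) := by
  let ψ : F →ₗ[ℂ] (F.map φ) :=
    { toFun := fun x => ⟨φ x, (NonUnitalStarSubalgebra.mem_map).2 ⟨x, x.2, rfl⟩⟩
      map_add' := fun x y => by ext; simp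
      map_smul' := fun c x => by ext; simp }
  have hs : Function.Surjective ψ := by
    rintro ⟨y, hy⟩
    obtain ⟨x, hx, rfl⟩ := (NonUnitalStarSubalgebra.mem_map).1 hy
    exact ⟨⟨x, hx⟩, rfl⟩
  exact Module.Finite.of_surjective ψ hs

lemma closed_fd {N : Type} [NonUnitalCStarAlgebra N] (F : NonUnitalStarSubalgebra ℂ N)
    (hF : FiniteDimensional ℂ F) : IsClosed (F : Set N) := by
  have h : FiniteDimensional ℂ F.toNonUnitalSubalgebra.toSubmodule := hF
  exact Submodule.closed_of_finiteDimensional F.toNonUnitalSubalgebra.toSubmodule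

theorem t (hPRJ : S_PRJ) (hPCL : S_PCL) : S_PRX := by
  intro M _ D hD hL n
  induction n with
  | zero =>
    intro g hg ho S ε hS hε
    obtain ⟨F, h1, h2, h3⟩ := hL S ε hS hε
    exact ⟨F, h1, h2, fun i => i.elim0, h3⟩
  | succ n ih =>
    intro g hg ho S ε hS hε
    classical
    obtain ⟨K, hK0, hK⟩ : ∃ K : ℝ, 0 ≤ K ∧ ∀ x ∈ S, ‖x‖ ≤ K :=
      ⟨∑ x ∈ S, ‖x‖, Finset.sum_nonneg fun _ _ => norm_nonneg _,
        fun x hx => Finset.single_le_sum (f := fun x => ‖x‖) (fun _ _ => norm_nonneg _) hx⟩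
    obtain ⟨η, hη0, hη1, hη2⟩ : ∃ η : ℝ, 0 < η ∧ η ≤ 1 / 64 ∧ 72 * η * K + η < ε := by
      have hpos : 0 < 72 * K + 1 := by positivity
      refine ⟨min (1 / 64) (ε / (2 * (72 * K + 1))), ?_, min_le_left _ _, ?_⟩
      · apply lt_min (by norm_num)
        positivity
      · have h1 : min (1 / 64) (ε / (2 * (72 * K + 1))) * (72 * K + 1) ≤ ε / 2 := by
          calc min (1 / 64) (ε / (2 * (72 * K + 1))) * (72 * K + 1)
              ≤ (ε / (2 * (72 * K + 1))) * (72 * K + 1) :=
                mul_le_mul_of_nonneg_right (min_le_right _ _) hpos.le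
            _ = ε / 2 := by field_simp
        nlinarith
    have hgl := hg (Fin.last n)
    obtain ⟨F', hF1, hF2, hF3, hF4⟩ := ih (fun i => g i.castSucc) (fun i => hg _)
      (fun i j hij => ho _ _ fun h => hij (Fin.castSucc_injective n h)) (insert (g (Fin.last n)) S)
      η (by
        intro x hx
        rcases Finset.mem_insert.1 hx with rfl | hx
        · exact hgl.1
        · exact hS x hx) hη0
    obtain ⟨y0, hy0F, hy0⟩ := hF4 _ (Finset.mem_insert_self _ _)
    set e : M := g (Fin.last n) with he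
    have hee : e * e = e := hgl.2.2
    have hes : star e = e := hgl.2.1
    have hen : ‖e‖ ≤ 1 := norm_pj hgl.2
    -- symmetrise
    obtain ⟨y, hyF, hys, hye⟩ : ∃ y ∈ F', star y = y ∧ ‖y - e‖ ≤ η := by
      refine ⟨(1 / 2 : ℂ) • (y0 + star y0), ?_, ?_, ?_⟩
      · exact SMulMemClass.smul_mem _ (add_mem hy0F (star_mem hy0F))
      · rw [star_smul, star_add, star_star, add_comm]
        simp
      · have h1 : (1 / 2 : ℂ) • (y0 + star y0) - e
            = (1 / 2 : ℂ) • (-(e - y0) + -(star (e - y0))) := by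
          rw [star_sub, hes]
          have h2 : e = (1 / 2 : ℂ) • (e + e) := by
            rw [← two_smul ℂ e, smul_smul]; norm_num
          nth_rw 1 [h2]
          rw [← smul_sub]
          congr 1
          abel
        rw [h1, norm_smul]
        have h3 : ‖(1 / 2 : ℂ)‖ = 1 / 2 := by simp
        rw [h3]
        have h4 := norm_add_le (-(e - y0)) (-(star (e - y0)))
        rw [norm_neg, norm_neg, norm_star] at h4
        linarith
    obtain ⟨Q, hQd⟩ : ∃ Q : M, Q = ∑ i : Fin n, g i.castSucc := ⟨_, rfl⟩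
    have hQF : Q ∈ F' := by
      rw [hQd]
      exact sum_mem fun i _ => hF3 i
    have hgQ : ∀ i : Fin n, g i.castSucc * Q = g i.castSucc := by
      intro i
      rw [hQd, Finset.mul_sum, Finset.sum_eq_single i]
      · exact (hg _).2.2
      · intro j _ hj
        exact ho _ _ fun h => hj (Fin.castSucc_injective n h).symm
      · intro h
        exact absurd (Finset.mem_univ i) h
    have hQs : star Q = Q := by
      rw [hQd, star_sum]
      exact Finset.sum_congr rfl fun i _ => (hg _).2.1
    have hQQ : Q * Q = Q := by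
      nth_rw 1 [hQd]
      rw [Finset.sum_mul]
      rw [Finset.sum_congr rfl fun i _ => hgQ i]
      exact hQd.symm
    have hQg : ∀ i : Fin n, Q * g i.castSucc = g i.castSucc := by
      intro i
      have h := congrArg star (hgQ i)
      rw [star_mul, hQs, (hg i.castSucc).2.1] at h
      exact h
    have heQ : e * Q = 0 := by
      rw [hQd, Finset.mul_sum]
      exact Finset.sum_eq_zero fun i _ => ho _ _ (Fin.castSucc_lt_last i).ne'
    have hQe : Q * e = 0 := by
      have h := congrArg star heQ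
      rw [star_mul, hQs, hes, star_zero] at h
      exact h
    have hR : Pj (1 - Q) := by
      refine ⟨by rw [star_sub, star_one, hQs], ?_⟩
      rw [mul_sub, sub_mul, sub_mul, hQQ]
      simp
    have hRn : ‖1 - Q‖ ≤ 1 := norm_pj hR
    obtain ⟨c, hcd⟩ : ∃ c : M, c = (1 - Q) * y * (1 - Q) := ⟨_, rfl⟩
    have hc' : c = y - Q * y - y * Q + Q * y * Q := by
      rw [hcd]; noncomm_ring
    have hcF : c ∈ F' := by
      rw [hc']
      exact add_mem (sub_mem (sub_mem hyF (mul_mem hQF hyF)) (mul_mem hyF hQF))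
        (mul_mem (mul_mem hQF hyF) hQF)
    have hcs : star c = c := by
      rw [hcd, star_mul, star_mul, hys, hR.1, mul_assoc]
    have hQR : Q * (1 - Q) = 0 := by rw [mul_sub, mul_one, hQQ, sub_self]
    have hRQ : (1 - Q) * Q = 0 := by rw [sub_mul, one_mul, hQQ, sub_self]
    have hQc : Q * c = 0 := by
      rw [hcd, ← mul_assoc, ← mul_assoc, hQR, zero_mul, zero_mul]
    have hcQ : c * Q = 0 := by
      rw [hcd, mul_assoc, hRQ, mul_zero]
    have hce : ‖c - e‖ ≤ η := by
      have h1 : c - e = (1 - Q) * (y - e) * (1 - Q) := by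
        have h2 : (1 - Q) * e * (1 - Q) = e := by
          rw [sub_mul, one_mul, hQe, sub_zero, mul_sub, mul_one, heQ, sub_zero]
        rw [mul_sub (1 - Q) y e, sub_mul _ _ (1 - Q), h2, hcd]
      rw [h1]
      calc ‖(1 - Q) * (y - e) * (1 - Q)‖ ≤ ‖(1 - Q)‖ * ‖y - e‖ * ‖1 - Q‖ :=
            (norm_mul_le _ _).trans (mul_le_mul_of_nonneg_right (norm_mul_le _ _) (norm_nonneg _))
        _ ≤ 1 * η * 1 := by
            gcongr
        _ = η := by ring
    have hcn : ‖c‖ ≤ 1 + η := by
      calc ‖c‖ = ‖e + (c - e)‖ := by rw [add_sub_cancel]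
        _ ≤ ‖e‖ + ‖c - e‖ := norm_add_le _ _
        _ ≤ 1 + η := add_le_add hen hce
    have hcc : ‖c * c - c‖ ≤ 4 * η := by
      have h1 : c * c - c = c * (c - e) + (c - e) * e + -(c - e) := by
        have : (c - e) * e = c * e - e := by rw [sub_mul, hee]
        rw [this, mul_sub]
        abel
      rw [h1]
      calc ‖c * (c - e) + (c - e) * e + -(c - e)‖
          ≤ ‖c * (c - e)‖ + ‖(c - e) * e‖ + ‖-(c - e)‖ := norm_add₃_le
        _ ≤ ‖c‖ * ‖c - e‖ + ‖c - e‖ * ‖e‖ + ‖c - e‖ := by
            gcongr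
            · exact norm_mul_le _ _
            · exact norm_mul_le _ _
            · rw [norm_neg]
        _ ≤ (1 + η) * η + η * 1 + η := by
            gcongr
        _ ≤ 4 * η := by nlinarith
    obtain ⟨q, hqF, hq, hqc, hqx⟩ := hPRJ M F' (closed_fd F' hF1) c hcF hcs (4 * η)
      (by linarith) hcc
    have hQq : Q * q = q * Q := hqx Q (by rw [hQc, hcQ])
    obtain ⟨r, hrd⟩ : ∃ r : M, r = q - q * Q := ⟨_, rfl⟩
    have hrF : r ∈ F' := by
      rw [hrd]
      exact sub_mem hqF (mul_mem hqF hQF)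
    have hrp : Pj r := by
      constructor
      · rw [hrd, star_sub, star_mul, hQs, hq.1, hQq]
      · have h1 : q * Q * q = q * Q := by
          rw [mul_assoc, hQq, ← mul_assoc, hq.2]
        have h2 : q * Q * (q * Q) = q * Q := by
          rw [← mul_assoc, h1, mul_assoc, hQQ]
        rw [hrd, mul_sub, sub_mul, sub_mul, hq.2, h1, h2, ← mul_assoc, hq.2]
        simp
    have hrg : ∀ i : Fin n, r * g i.castSucc = 0 := by
      intro i
      rw [hrd, sub_mul, mul_assoc, hQg, sub_self]
    have hgr : ∀ i : Fin n, g i.castSucc * r = 0 := by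
      intro i
      have h := congrArg star (hrg i)
      rw [star_mul, hrp.1, (hg i.castSucc).2.1, star_zero] at h
      exact h
    have hre : ‖r - e‖ ≤ 9 * η := by
      have h1 : r - c = (q - c) * (1 - Q) := by
        rw [mul_sub, mul_one, sub_mul, hcQ, sub_zero, hrd]
        abel
      have h2 : ‖r - c‖ ≤ 8 * η := by
        rw [h1]
        calc ‖(q - c) * (1 - Q)‖ ≤ ‖q - c‖ * ‖1 - Q‖ := norm_mul_le _ _
          _ ≤ (2 * (4 * η)) * 1 := by
            apply mul_le_mul hqc hRn (norm_nonneg _)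
            positivity
          _ = 8 * η := by ring
      calc ‖r - e‖ = ‖(r - c) + (c - e)‖ := by rw [sub_add_sub_cancel]
        _ ≤ ‖r - c‖ + ‖c - e‖ := norm_add_le _ _
        _ ≤ 9 * η := by linarith
    obtain ⟨w, hw1, hw2, hw3, hw4, hw5⟩ := hPCL M r e hrp hgl.2 (by linarith)
    have hw4' : ‖w - 1‖ ≤ 36 * η := by linarith
    have hwg : ∀ i : Fin n, g i.castSucc * w = w * g i.castSucc := by
      intro i
      apply hw5
      · rw [hgr, hrg]
      · rw [ho _ _ (Fin.castSucc_lt_last i).ne, he, ho _ _ (Fin.castSucc_lt_last i).ne']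
    have hwn : ‖w‖ ≤ 1 := norm_u hw1
    have hwsn : ‖star w‖ ≤ 1 := by rw [norm_star]; exact hwn
    refine ⟨F'.map (conj w hw1), fd_map F' hF1 _, ?_, ?_, ?_⟩
    · intro z hz
      obtain ⟨a, ha, rfl⟩ := (NonUnitalStarSubalgebra.mem_map).1 hz
      rw [conj_apply]
      exact (hD.2 _ _ (hD.2 w a (hF2 ha)).1).2
    · intro i
      refine Fin.lastCases ?_ (fun j => ?_) i
      · refine (NonUnitalStarSubalgebra.mem_map).2 ⟨r, hrF, ?_⟩
        rw [conj_apply, hw3, mul_assoc, hw2, mul_one]
      · refine (NonUnitalStarSubalgebra.mem_map).2 ⟨g j.castSucc, hF3 j, ?_⟩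
        rw [conj_apply, ← hwg, mul_assoc, hw2, mul_one]
    · intro x hx
      obtain ⟨y', hy'F, hy'⟩ := hF4 x (Finset.mem_insert_of_mem hx)
      refine ⟨w * y' * star w, (NonUnitalStarSubalgebra.mem_map).2 ⟨y', hy'F, rfl⟩, ?_⟩
      have h1 : x - w * y' * star w
          = -((w - 1) * x) + -(w * x * (star (w - 1))) + w * (x - y') * star w := by
        rw [star_sub, star_one]
        noncomm_ring
      have hxn := hK x hx
      rw [h1]
      calc ‖-((w - 1) * x) + -(w * x * (star (w - 1))) + w * (x - y') * star w‖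
          ≤ ‖-((w - 1) * x)‖ + ‖-(w * x * (star (w - 1)))‖ + ‖w * (x - y') * star w‖ :=
            norm_add₃_le
        _ ≤ ‖w - 1‖ * ‖x‖ + ‖w‖ * ‖x‖ * ‖w - 1‖ + ‖w‖ * ‖x - y'‖ * ‖star w‖ := by
            rw [norm_neg, norm_neg]
            have ha := norm_mul_le (w - 1) x
            have hb : ‖w * x * (star (w - 1))‖ ≤ ‖w‖ * ‖x‖ * ‖w - 1‖ := by
              have := (norm_mul_le (w * x) (star (w - 1))).trans
                (mul_le_mul_of_nonneg_right (norm_mul_le w x) (norm_nonneg _))
              rwa [norm_star] at this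
            have hc := (norm_mul_le (w * (x - y')) (star w)).trans
                (mul_le_mul_of_nonneg_right (norm_mul_le w (x - y')) (norm_nonneg _))
            linarith
        _ ≤ (36 * η) * K + 1 * K * (36 * η) + 1 * ‖x - y'‖ * 1 := by
            gcongr
        _ < ε := by
            have := hy'
            linarith

end Pool.Agent.Helper57.AE.PRX
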